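import Pool.Agent.R939.BC.Tr
import Pool.Agent.R939.HI.Fix

/-!
# Almost all compositions of a fixed irreducible polynomial are irreducible
-/

set_option autoImplicit false
set_option linter.all false

namespace Pool.Agent.R939.BC

open Polynomial NumberField Pool.Agent.R939.EI Pool.Agent.R939.HI Pool.Agent.W275.UB
open Pool.Agent.TH115.GD Pool.Agent Pool.Agent.H927R2.RD Pool.Agent.W275.ND

/-- an order embeds in the `p`-adic integers for some prime `p` outside a finite set -/
theorem spl3 (O J : Type) [CommRing O] [IsDomain O] [Fintype J] (ω : Module.Basis J ℤ O)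
    (S₀ : Finset ℕ) :
    ∃ (p : ℕ) (_ : Fact p.Prime), p ∉ S₀ ∧ Nonempty (O →+* ℤ_[p]) := by
  classical
  have hfree : Module.Free ℤ O := Module.Free.of_basis ω
  have hfin : Module.Finite ℤ O := Module.Finite.of_basis ω
  have hint : Algebra.IsIntegral ℤ O := Algebra.IsIntegral.of_finite ℤ O
  let σ : O →ₐ[ℤ] ℂ := IsAlgClosed.lift
  set s : Finset ℂ := Finset.univ.image (fun j => σ (ω j)) with hs
  obtain ⟨K, hK, hK', S, h⟩ := exists_padic_embedding s
  obtain ⟨p, hpS', hp⟩ := W930.ND.exists_degOne K (S₀ ∪ S)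
  rw [Finset.mem_union, not_or] at hpS'
  obtain ⟨hp2, hpS⟩ := hpS'
  have hpp : Fact p.Prime := ⟨hp.1⟩
  obtain ⟨e⟩ := h p hpS hp
  refine ⟨p, hpp, hp2, ?_⟩
  have hmem : ∀ x : O, σ x ∈ Subfield.closure (s : Set ℂ) := by
    intro x
    rw [← ω.sum_repr x, map_sum]
    refine sum_mem fun j _ => ?_
    rw [map_zsmul]
    refine zsmul_mem (Subfield.subset_closure ?_) _
    rw [hs]
    simp
  let τ : O →+* Subfield.closure (s : Set ℂ) := (σ : O →+* ℂ).codRestrict _ hmem
  let g : O →+* ℚ_[p] := e.comp τ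
  have hg : ∀ x : O, g x ∈ PadicInt.subring p := by
    intro x
    have h1 : IsIntegral ℤ (g x) := (hint.isIntegral x).map g.toIntAlgHom
    have h2 : IsIntegral ℤ_[p] (g x) := h1.tower_top
    obtain ⟨y, hy⟩ := IsIntegrallyClosed.isIntegral_iff.1 h2
    rw [← hy]
    exact y.2
  exact ⟨g.codRestrict (PadicInt.subring p) hg⟩

section eqn

variable {O O' J : Type} [CommRing O] [CommRing O'] [Fintype J] (e : J → O') (c : O') (β : O')
  (n : ℕ)

/-- the equation `c h(θ) = β` for the polynomial `h` with the coefficients `∑ v (i, j) e j` -/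
noncomputable def eqB : MvPolynomial Unit (MvPolynomial (Fin (n + 1) × J) O') :=
  MvPolynomial.C (MvPolynomial.C c) * ∑ i : Fin (n + 1), MvPolynomial.C
    (∑ j, MvPolynomial.C (e j) * MvPolynomial.X (i, j)) * MvPolynomial.X () ^ (i : ℕ) -
    MvPolynomial.C (MvPolynomial.C β)

theorem eval_eqB {R : Type} [CommRing R] (σ : O' →+* R) (w : Fin (n + 1) × J → R) (y : Unit → R) :
    MvPolynomial.eval₂ (MvPolynomial.eval₂Hom σ w) y (eqB e c β n) =
      σ c * (polA (cv (fun j => σ (e j)) w)).eval (y ()) - σ β := by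
  rw [eqB, eval_polA, MvPolynomial.eval₂_sub, MvPolynomial.eval₂_mul, MvPolynomial.eval₂_sum,
    MvPolynomial.eval₂_C, MvPolynomial.eval₂_C]
  simp [cv]

end eqn

/-- the local computation -/
theorem no_root {A : Type} [CommRing A] [IsDomain A] [IsDiscreteValuationRing A]
    {K' : Type} [Field K'] [Algebra A K'] [IsFractionRing A K'] {π : A} (hπ : Irreducible π)
    {p : A} (hπp : π ∣ p) (hp0 : p ≠ 0) {n : ℕ} (hn : 1 ≤ n) (hπn : ¬ π ^ n ∣ p) {r : A}
    {b : Fin (n + 1) → A} (hb : ∀ i : Fin (n + 1), p ^ 2 ∣ b i - (X ^ n + C (r + p) : A[X]).coeff i)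
    {θ : K'} (hθ : ((polA b).map (algebraMap A K')).eval θ = algebraMap A K' r) : False := by
  set b' : Fin (n + 1) → A := fun i => b i - if (i : ℕ) = 0 then r else 0 with hb'
  have hco : ∀ j : Fin (n + 1), p ^ 2 ∣ b' j - (X ^ n + C p : A[X]).coeff j := by
    intro j
    have h1 := hb j
    have e : b' j - (X ^ n + C p : A[X]).coeff j = b j - (X ^ n + C (r + p) : A[X]).coeff j := by
      rw [hb']
      simp only [coeff_add, coeff_C]
      split_ifs <;> ring
    rw [e]
    exact h1
  have hl : (Fin.last n : Fin (n + 1)).val = n := Fin.val_last n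
  have hlead : IsUnit (b' (Fin.last n)) := by
    have h1 := hco (Fin.last n)
    rw [hl, coeff_add, coeff_X_pow, if_pos rfl, coeff_C, if_neg (by omega), add_zero] at h1
    have h2 := unit_add hπ isUnit_one ((hπp.trans (dvd_pow_self _ two_ne_zero)).trans h1)
    rwa [add_sub_cancel] at h2
  have hpol : polA b' = polA b - C r := by
    rw [← sub_eq_zero]
    unfold polA
    rw [sub_sub_eq_add_sub, add_comm, add_sub_assoc, ← Finset.sum_sub_distrib]
    have h1 : ∀ i : Fin (n + 1), C (b' i) * X ^ (i : ℕ) - C (b i) * X ^ (i : ℕ) =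
        if (i : ℕ) = 0 then - C r else 0 := by
      intro i
      rw [hb']
      simp only
      split_ifs with h
      · rw [h, C_sub]
        ring
      · rw [sub_zero, sub_self]
    rw [Finset.sum_congr rfl fun i _ => h1 i, Finset.sum_eq_single (0 : Fin (n + 1))]
    · simp
    · intro i _ hi
      rw [if_neg]
      intro h0
      exact hi (Fin.ext h0)
    · simp
  obtain ⟨θ₀, hθ₀, h0⟩ := int_root (K := K') (f := polA b')
    (by rw [(lead_polA (c := b') hlead).2]; exact hlead) (θ := θ) (by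
      rw [hpol, Polynomial.map_sub, eval_sub, hθ, map_C, eval_C, sub_self])
  obtain ⟨s, hs⟩ := polA_near (b := b') (c := fun j => (X ^ n + C p : A[X]).coeff j) hco θ₀
  have hgd : (X ^ n + C p : A[X]).natDegree ≤ n := by
    refine (natDegree_add_le _ _).trans (max_le ?_ ?_)
    · exact natDegree_X_pow_le n
    · rw [natDegree_C]
      exact Nat.zero_le _
  rw [h0, polA_of hgd, eval_add, eval_pow, eval_X, eval_C] at hs
  obtain ⟨e, c, u, v, hu, hv, hec, hc⟩ := val_root (k := 1) (x := 1) (y := 1) hπ hn le_rfl hp0 hπp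
    isUnit_one isUnit_one (θ := θ₀) (s := s) (by
      rw [pow_one, one_mul, mul_one]
      linear_combination -hs)
  apply hπn
  rw [hu, pow_dvd_unit hπ]
  have h1 : n * 1 ≤ n * c := Nat.mul_le_mul_left n hc
  omega

end Pool.Agent.R939.BC
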