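import Pool.Agent.R939.BC.Comp

/-!
# Almost all compositions of a fixed irreducible polynomial are irreducible, continued
-/

set_option autoImplicit false
set_option linter.all false

namespace Pool.Agent.R939.BC

open Polynomial NumberField Pool.Agent.R939.EI Pool.Agent.R939.HI Pool.Agent.W275.UB
open Pool.Agent.TH115.GD Pool.Agent Pool.Agent.H927R2.RD Pool.Agent.W275.ND

section dens

variable {O O' J J' : Type} [CommRing O] [CommRing O'] [IsDomain O'] [Fintype J] [Fintype J']

theorem dens_eq (ω : Module.Basis J ℤ O) (ω' : Module.Basis J' ℤ O') (i : O →+* O')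
    (hi : Function.Injective i) [Nonempty J] (β : O') (c : ℤ) (hc : c ≠ 0) {n : ℕ} (hn : 1 ≤ n) :
    D0 {v : Fin (n + 1) × J → ℤ | ∃ (K : Type) (_ : Field K) (_ : NumberField K) (σ : O' →+* K)
      (θ : K), Module.finrank ℚ K ≤ (n - 1) * Fintype.card J' ∧
      (c : K) * (polA (cv (fun j => σ (i (ω j))) fun q => (v q : K))).eval θ = σ β} := by
  classical
  haveI : Module.Finite ℤ O' := Module.Finite.of_basis ω'
  haveI : Module.Free ℤ O' := Module.Free.of_basis ω'
  have hcO : ((c : ℤ) : O') ≠ 0 := by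
    haveI : CharZero O' := by
      have : Function.Injective (algebraMap ℤ O') := by
        haveI : IsDomain O' := inferInstance
        exact FaithfulSMul.algebraMap_injective ℤ O'
      exact charZero_of_injective_algebraMap this
    exact_mod_cast hc
  obtain ⟨p, hp, hpS, ⟨σ₀⟩⟩ := spl3 O' J' ω' (c.natAbs.primeFactors)
  haveI := hp
  have hpc : ¬ (p : ℤ) ∣ c := by
    intro h
    apply hpS
    rw [Nat.mem_primeFactors]
    exact ⟨hp.1, Int.natCast_dvd.1 h, Int.natAbs_ne_zero.2 hc⟩
  have hcu : IsUnit ((c : ℤ) : ℤ_[p]) := by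
    rw [PadicInt.isUnit_iff]
    have h6 : ¬ ‖((c : ℤ) : ℤ_[p])‖ < 1 := by
      rw [PadicInt.norm_int_lt_one_iff_dvd]
      exact hpc
    exact le_antisymm (PadicInt.norm_le_one _) (not_lt.1 h6)
  obtain ⟨cu, hcu⟩ := hcu
  set r : ℤ_[p] := (cu⁻¹ : ℤ_[p]ˣ) * σ₀ β with hr
  have hcr : (c : ℤ_[p]) * r = σ₀ β := by
    rw [hr, ← mul_assoc, ← hcu, Units.mul_inv, one_mul]
  set t : Fin (n + 1) → ℤ_[p] := fun l => (X ^ n + C (r + p) : ℤ_[p][X]).coeff l with ht
  have hone : ∑ j, ((ω.repr 1 j : ℤ) : ℤ_[p]) * σ₀ (i (ω j)) = 1 := by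
    have h1 := congrArg (fun x => σ₀ (i x)) (ω.sum_repr 1)
    simp only [map_sum, map_one] at h1
    rw [← h1]
    refine Finset.sum_congr rfl fun j _ => ?_
    rw [zsmul_eq_mul, map_mul, map_mul, map_intCast, map_intCast]
  have key := transfer ω' ({eqB (fun j => i (ω j)) ((c : ℤ) : O') β n} :
      Set (MvPolynomial Unit (MvPolynomial (Fin (n + 1) × J) O'))) (n - 1) (by
    intro Wf _ _ _ σ y hinj hσa hy t
    have h1 := hy _ (Set.mem_singleton _)
    rw [eval_eqB] at h1
    set v : Fin (n + 1) → Wf := cv (fun j => σ (i (ω j))) fun q => gn (Fin (n + 1) × J) Wf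
      (MvPolynomial.X q) with hv
    have hvalg : ∀ l, IsAlgebraic (EE (Fin (n + 1) × J)) (v l) := by
      intro l
      rw [hv]
      simp only [cv]
      refine Finset.sum_induction _ (IsAlgebraic (EE (Fin (n + 1) × J)))
        (fun _ _ => IsAlgebraic.add) isAlgebraic_zero ?_
      intro j _
      exact (hσa _).mul (isAlgebraic_algebraMap _)
    -- the leading coefficient
    have hvn : v (Fin.last n) ≠ 0 := by
      have e : v (Fin.last n) = MvPolynomial.eval₂Hom σ
          (fun q => gn (Fin (n + 1) × J) Wf (MvPolynomial.X q))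
          (∑ j, MvPolynomial.C (i (ω j)) * MvPolynomial.X (Fin.last n, j)) := by
        rw [hv]
        simp [cv]
      rw [e, Ne, map_eq_zero_iff _ hinj]
      intro h0
      obtain ⟨j0⟩ := (inferInstance : Nonempty J)
      have h2 := congrArg (MvPolynomial.coeff (Finsupp.single (Fin.last n, j0) 1)) h0
      rw [MvPolynomial.coeff_sum, MvPolynomial.coeff_zero] at h2
      simp only [MvPolynomial.coeff_C_mul] at h2
      rw [Finset.sum_eq_single j0] at h2
      · rw [MvPolynomial.coeff_X', if_pos rfl, mul_one] at h2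
        have h3 : ω j0 = 0 := hi (by rw [h2, map_zero])
        have h4 := ω.ne_zero (i := j0)
        exact h4 h3
      · intro j _ hj
        rw [MvPolynomial.coeff_X', if_neg, mul_zero]
        intro h4
        have h5 := Finsupp.single_left_injective (one_ne_zero) h4
        exact hj (Prod.ext_iff.1 h5).2
      · intro h4
        exact absurd (Finset.mem_univ _) h4
    set f : Wf[X] := C (σ ((c : ℤ) : O')) * polA v - C (σ β) with hf
    have hσc : σ ((c : ℤ) : O') ≠ 0 := by
      have e : σ ((c : ℤ) : O') = MvPolynomial.eval₂Hom σ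
          (fun q => gn (Fin (n + 1) × J) Wf (MvPolynomial.X q))
          (MvPolynomial.C ((c : ℤ) : O')) := by simp
      rw [e, Ne, map_eq_zero_iff _ hinj]
      intro h0
      exact hcO (MvPolynomial.C_injective _ _ (by rw [h0, map_zero]))
    have hlead := lead_polA (isUnit_iff_ne_zero.2 hvn)
    have hf0 : f ≠ 0 := by
      intro h0
      have h2 := congrArg (fun g : Wf[X] => g.coeff n) h0
      simp only [hf, coeff_sub, coeff_C_mul, coeff_zero, coeff_C] at h2
      rw [if_neg (by omega), sub_zero] at h2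
      have h3 : (polA v).coeff n = v (Fin.last n) := by
        rw [← hlead.2, leadingCoeff, hlead.1]
      rw [h3] at h2
      exact mul_ne_zero hσc hvn h2
    refine isAlg_root hf0 ?_ (θ := y ()) ?_
    · intro m
      rw [hf, coeff_sub, coeff_C_mul, coeff_C]
      have h2 : IsAlgebraic (EE (Fin (n + 1) × J)) ((polA v).coeff m) := by
        unfold polA
        rw [finset_sum_coeff]
        refine Finset.sum_induction _ (IsAlgebraic (EE (Fin (n + 1) × J)))
          (fun _ _ => IsAlgebraic.add) isAlgebraic_zero ?_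
        intro j _
        rw [coeff_C_mul, coeff_X_pow]
        split_ifs
        · rw [mul_one]
          exact hvalg j
        · rw [mul_zero]
          exact isAlgebraic_zero
      split_ifs
      · exact ((hσa _).mul h2).sub (hσa _)
      · exact ((hσa _).mul h2).sub isAlgebraic_zero
    · rw [hf, eval_sub, eval_mul, eval_C, eval_C]
      exact h1) p σ₀ (fun q => ((ω.repr 1 q.2 : ℤ) : ℤ_[p]) * t q.1) 2 (by
    intro K' _ A _ _ _ _ _ π τ hπ hπp hπn x hx y hy
    have hp0 : (p : A) ≠ 0 := p_ne hπn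
    have hn1 : n - 1 + 1 = n := by omega
    rw [hn1] at hπn
    have h1 := hy _ (Set.mem_singleton _)
    rw [eval_eqB] at h1
    set b : Fin (n + 1) → A := fun l => ∑ j, τ (σ₀ (i (ω j))) * τ (x (l, j)) with hb
    have hcv : (cv (fun j => ((algebraMap A K').comp (τ.comp σ₀)) (i (ω j)))
        fun q => algebraMap A K' (τ (x q))) = fun l => algebraMap A K' (b l) := by
      funext l
      rw [hb]
      simp [cv]
    rw [hcv, ← polA_map] at h1
    have hci : ((algebraMap A K').comp (τ.comp σ₀)) ((c : ℤ) : O') = algebraMap A K' (τ (c : ℤ_[p])) := by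
      simp
    have hcβ : ((algebraMap A K').comp (τ.comp σ₀)) β =
        algebraMap A K' (τ (c : ℤ_[p])) * algebraMap A K' (τ r) := by
      rw [← map_mul, ← map_mul, hcr]
      rfl
    rw [hci, hcβ, ← mul_sub] at h1
    have hcne : algebraMap A K' (τ (c : ℤ_[p])) ≠ 0 := by
      have h2 : IsUnit (algebraMap A K' (τ (c : ℤ_[p]))) := by
        rw [← hcu]
        exact (cu.isUnit.map τ).map (algebraMap A K')
      exact h2.ne_zero
    have h2 := (mul_eq_zero.1 h1).resolve_left hcne
    refine no_root (K' := K') hπ hπp hp0 hn hπn (r := τ r) (b := b) ?_ (sub_eq_zero.1 h2)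
    intro l
    have e1 : (X ^ n + C (τ r + (p : A)) : A[X]).coeff l = τ (t l) := by
      rw [ht]
      simp only [coeff_add, coeff_X_pow, coeff_C, map_add]
      split_ifs <;> simp
    have e : b l - τ (t l) =
        τ (∑ j, σ₀ (i (ω j)) * (x (l, j) - ((ω.repr 1 j : ℤ) : ℤ_[p]) * t l)) := by
      have e1 : τ (t l) = τ ((∑ j, ((ω.repr 1 j : ℤ) : ℤ_[p]) * σ₀ (i (ω j))) * t l) := by
        rw [hone, one_mul]
      rw [e1, hb, Finset.sum_mul, map_sum, map_sum, ← Finset.sum_sub_distrib]
      refine Finset.sum_congr rfl fun j _ => ?_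
      rw [← map_mul, ← map_sub]
      congr 1
      ring
    rw [e1, e]
    have h3 : (p : ℤ_[p]) ^ 2 ∣
        ∑ j, σ₀ (i (ω j)) * (x (l, j) - ((ω.repr 1 j : ℤ) : ℤ_[p]) * t l) :=
      Finset.dvd_sum fun j _ => Dvd.dvd.mul_left (hx (l, j)) _
    have h4 := map_dvd τ h3
    rwa [map_pow, map_natCast] at h4)
  intro ε hε
  refine (key ε hε).mono ?_
  rintro v ⟨K, _, _, σ, θ, hK, hθ⟩
  refine ⟨K, inferInstance, inferInstance, σ, fun _ => θ, hK, ?_⟩
  rintro g rfl
  rw [eval_eqB, map_intCast, hθ, sub_self]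

end dens

end Pool.Agent.R939.BC
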