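import Pool.Agent.R939.BC.Comp2

/-!
# Almost all compositions of a fixed irreducible polynomial are irreducible: number fields
-/

set_option autoImplicit false
set_option linter.all false

namespace Pool.Agent.R939.BC

open Polynomial NumberField Pool.Agent.R939.EI Pool.Agent.R939.HI Pool.Agent.W275.UB
open Pool.Agent.TH115.GD Pool.Agent Pool.Agent.H927R2.RD Pool.Agent.W275.ND

section nf

variable {k : Type} [Field k] [NumberField k] {J : Type} [Fintype J] (B : Module.Basis J ℤ (𝓞 k))

theorem comp_small {π : k[X]} (hπ : Irreducible π) {n : ℕ} (hn : 1 ≤ n) :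
    D0 {v : Fin (n + 1) × J → ℤ | ∃ f : k[X], Irreducible f ∧ f.natDegree < n * π.natDegree ∧
      f ∣ π.comp (polA fun l => kv B v l)} := by
  classical
  haveI : Fact (Irreducible π) := ⟨hπ⟩
  obtain ⟨j0⟩ : Nonempty J := by
    rw [← Fintype.card_pos_iff, card_J B]
    exact Module.finrank_pos
  haveI : Nonempty J := ⟨j0⟩
  let L := AdjoinRoot π
  haveI : FiniteDimensional k L := (AdjoinRoot.powerBasis hπ.ne_zero).finite
  haveI : CharZero L := charZero_of_injective_algebraMap (algebraMap k L).injective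
  haveI : IsScalarTower ℚ k L := IsScalarTower.of_algebraMap_eq fun q => by simp
  haveI : FiniteDimensional ℚ L := FiniteDimensional.trans ℚ k L
  haveI : NumberField L := { to_charZero := inferInstance, to_finiteDimensional := inferInstance }
  have hL : Module.finrank k L = π.natDegree := by
    rw [(AdjoinRoot.powerBasis hπ.ne_zero).finrank, AdjoinRoot.powerBasis_dim]
  obtain ⟨c, hc0, hc⟩ : ∃ d : ℤ, d ≠ 0 ∧ IsIntegral ℤ (d • (AdjoinRoot.root π : L)) := by
    have h2 : IsAlgebraic ℤ (AdjoinRoot.root π : L) := (IsFractionRing.isAlgebraic_iff ℤ ℚ L).2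
      (Algebra.IsAlgebraic.isAlgebraic _)
    obtain ⟨y, hy, h3⟩ := h2.exists_integral_multiple
    exact ⟨y, hy, h3⟩
  let β : 𝓞 L := ⟨c • (AdjoinRoot.root π : L), hc⟩
  have hβ : algebraMap (𝓞 L) L β = (c : L) * AdjoinRoot.root π := by
    rw [← zsmul_eq_mul]
    rfl
  let i : 𝓞 k →+* 𝓞 L := RingOfIntegers.mapRingHom (algebraMap k L)
  have hi : ∀ x, algebraMap (𝓞 L) L (i x) = algebraMap k L (algebraMap (𝓞 k) k x) := fun x => rfl
  have hinj : Function.Injective i := by
    intro x y hxy
    have h1 := congrArg (algebraMap (𝓞 L) L) hxy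
    rw [hi, hi] at h1
    exact FaithfulSMul.algebraMap_injective (𝓞 k) k ((algebraMap k L).injective h1)
  set B' := RingOfIntegers.basis L with hB'
  have hcard := card_J B'
  intro ε hε
  refine (dens_eq B B' i hinj β c hc0 hn ε hε).mono ?_
  rintro v ⟨f, hf, hdeg, hdv⟩
  haveI : Fact (Irreducible f) := ⟨hf⟩
  let K := AdjoinRoot f
  haveI : FiniteDimensional k K := (AdjoinRoot.powerBasis hf.ne_zero).finite
  haveI : CharZero K := charZero_of_injective_algebraMap (algebraMap k K).injective
  haveI : IsScalarTower ℚ k K := IsScalarTower.of_algebraMap_eq fun q => by simp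
  haveI : FiniteDimensional ℚ K := FiniteDimensional.trans ℚ k K
  haveI : NumberField K := { to_charZero := inferInstance, to_finiteDimensional := inferInstance }
  have hK : Module.finrank k K = f.natDegree := by
    rw [(AdjoinRoot.powerBasis hf.ne_zero).finrank, AdjoinRoot.powerBasis_dim]
  set h : k[X] := polA fun l => kv B v l with hh
  set x : K := AdjoinRoot.mk f h with hx
  have hx0 : π.eval₂ (algebraMap k K) x = 0 := by
    have h1 : AdjoinRoot.mk f (π.comp h) = 0 := AdjoinRoot.mk_eq_zero.2 hdv
    rw [← AdjoinRoot.aeval_eq, aeval_comp, AdjoinRoot.aeval_eq] at h1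
    exact h1
  let ψ : L →+* K := AdjoinRoot.lift (algebraMap k K) x hx0
  have hψr : ψ (AdjoinRoot.root π) = x := AdjoinRoot.lift_root _
  have hψk : ∀ z : k, ψ (algebraMap k L z) = algebraMap k K z := fun z => AdjoinRoot.lift_of _
  letI : Algebra L K := ψ.toAlgebra
  haveI : IsScalarTower k L K := IsScalarTower.of_algebraMap_eq fun z => (hψk z).symm
  haveI : IsScalarTower ℚ L K := IsScalarTower.of_algebraMap_eq fun q => by simp
  haveI : FiniteDimensional L K := FiniteDimensional.right k L K
  have h1 : Module.finrank k L * Module.finrank L K = Module.finrank k K :=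
    Module.finrank_mul_finrank k L K
  have h2 : Module.finrank ℚ L * Module.finrank L K = Module.finrank ℚ K :=
    Module.finrank_mul_finrank ℚ L K
  rw [hL, hK] at h1
  have h3 : Module.finrank L K < n := by
    by_contra hcon
    have h4 : n * π.natDegree ≤ f.natDegree := by
      rw [← h1, mul_comm]
      exact Nat.mul_le_mul_left _ (not_lt.1 hcon)
    omega
  refine ⟨K, inferInstance, inferInstance, ψ.comp (algebraMap (𝓞 L) L), AdjoinRoot.root f, ?_, ?_⟩
  · rw [hcard, ← h2, mul_comm]
    exact Nat.mul_le_mul_right _ (by omega)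
  · have h4 : (fun j => (ψ.comp (algebraMap (𝓞 L) L)) (i (B j))) =
        fun j => ((algebraMap k K).comp (algebraMap (𝓞 k) k)) (B j) := by
      funext j
      rw [RingHom.comp_apply, hi, hψk]
      rfl
    rw [h4, cv_kv B v, RingHom.comp_apply, hβ, map_mul, hψr, map_intCast, ← polA_map, eval_map,
      hx, ← AdjoinRoot.aeval_eq, aeval_def]

/-- **Almost all compositions are irreducible.** -/
theorem dens_comp {F : k[X]} (hF : F ≠ 0) {n : ℕ} (hn : 1 ≤ n) :
    D0 {v : Fin (n + 1) × J → ℤ | ¬ ((polA fun l => kv B v l).natDegree = n ∧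
      ∀ π : k[X], Irreducible π → π ∣ F → Irreducible (π.comp (polA fun l => kv B v l)))} := by
  classical
  obtain ⟨j0⟩ : Nonempty J := by
    rw [← Fintype.card_pos_iff, card_J B]
    exact Module.finrank_pos
  set S := (UniqueFactorizationMonoid.normalizedFactors F).toFinset with hS
  have hmem : ∀ π ∈ S, Irreducible π := by
    intro π hπ
    rw [hS, Multiset.mem_toFinset] at hπ
    exact UniqueFactorizationMonoid.irreducible_of_normalized_factor π hπ
  have h1 : D0 (⋃ π ∈ S, {v : Fin (n + 1) × J → ℤ | ∃ f : k[X], Irreducible f ∧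
      f.natDegree < n * π.natDegree ∧ f ∣ π.comp (polA fun l => kv B v l)}) :=
    D0.biUnion _ _ fun π hπ => comp_small B (hmem π hπ) hn
  have h2 : D0 {v : Fin (n + 1) × J → ℤ |
      MvPolynomial.eval v (MvPolynomial.X (Fin.last n, j0)) = 0} :=
    zero _ (MvPolynomial.X_ne_zero _)
  intro ε hε
  refine ((h1.union h2) ε hε).mono ?_
  intro v hv
  by_contra hcon
  apply hv
  simp only [Set.mem_union, not_or, Set.mem_iUnion, exists_prop, not_exists, not_and] at hcon
  obtain ⟨k1, k2⟩ := hcon
  have hl : IsUnit (kv B v (Fin.last n)) := by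
    refine isUnit_iff_ne_zero.2 (kv_ne B (j := j0) ?_)
    intro h0
    apply k2
    show MvPolynomial.eval v (MvPolynomial.X _) = 0
    rw [MvPolynomial.eval_X]
    exact h0
  have hdeg := (lead_polA (c := fun l => kv B v l) hl).1
  refine ⟨hdeg, ?_⟩
  intro π hπ hdv
  obtain ⟨π', hπ', has⟩ := UniqueFactorizationMonoid.exists_mem_normalizedFactors_of_dvd hF hπ hdv
  have hπ'S : π' ∈ S := by
    rw [hS, Multiset.mem_toFinset]
    exact hπ'
  have hπi := hmem π' hπ'S
  have hpos : 1 ≤ n * π'.natDegree := Nat.mul_pos hn hπi.natDegree_pos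
  have h3 : Irreducible (π'.comp (polA fun l => kv B v l)) := by
    refine irr_of_no_small (N := n * π'.natDegree - 1) ?_ ?_
    · rw [natDegree_comp, hdeg, mul_comm]
      omega
    · intro f hf hfd hfdv
      exact k1 π' hπ'S ⟨f, hf, by omega, hfdv⟩
  obtain ⟨w, hw⟩ := has.symm
  obtain ⟨e, he, hew⟩ := isUnit_iff.1 w.isUnit
  rw [← hw, ← hew, mul_comp, C_comp]
  exact (irreducible_mul_isUnit (isUnit_C.2 he)).2 h3

end nf

end Pool.Agent.R939.BC
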