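import Pool.Agent.R939.BC.Comp3
import Pool.Agent.R939.EI.Odd6

/-!
# Almost all base changes of odd degree
-/

set_option autoImplicit false
set_option linter.all false

namespace Pool.Agent.R939.BC

open Polynomial NumberField Pool.Agent.R939.EI Pool.Agent.R939.HI Pool.Agent.W275.UB
open Pool.Agent.TH115.GD Pool.Agent Pool.Agent.H927R2.RD Pool.Agent.W275.ND

variable {k k' K F : Type} [Field k] [Field k'] [Algebra k k'] [Field K] [Algebra k[X] K]
    [Field F] [Algebra k'[X] F] [IsFractionRing k'[X] F] [Algebra K F]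

/-- **Almost all base changes of odd degree.** -/
theorem almost_all_covers [NumberField k] (hT : IsTower k k' K F) {J : Type} [Fintype J]
    (B : Module.Basis J ℤ (𝓞 k)) {a b : k[X]} (hb : b ≠ 0) (hd : a ^ 2 - 4 * b ≠ 0)
    (hNb : NotNorm b) (hNd : NotNorm (a ^ 2 - 4 * b))
    (hpA : PointsForNorms K F a b) (hpB : PointsForNorms K F (-2 * a) (a ^ 2 - 4 * b))
    {m : ℕ} (hm : Odd m) {η : ℝ} (hη : 0 < η) :
    ∃ H0 : ℕ, ∀ H : ℕ, H0 ≤ H →
      (({x : Fin (m + 1) → 𝓞 k | (∀ j t, |B.repr (x j) t| ≤ (H : ℤ)) ∧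
        ¬ ((polA fun j => algebraMap (𝓞 k) k (x j)).natDegree = m ∧
          TateAtTwo (F := F) k' (crvT
            (algebraMap k[X] K (a.comp (polA fun j => algebraMap (𝓞 k) k (x j))))
            (algebraMap k[X] K (b.comp (polA fun j => algebraMap (𝓞 k) k (x j))))))}.ncard : ℕ) :
              ℝ) ≤
        η * (2 * H + 1) ^ (Fintype.card J * (m + 1)) := by
  classical
  obtain ⟨H0, hH⟩ := dens_comp (n := m) B (F := b * (a ^ 2 - 4 * b)) (mul_ne_zero hb hd) hm.pos η hη
  refine ⟨H0, fun H hHH => ?_⟩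
  have h1 := hH H hHH
  have hcard : Fintype.card (Fin (m + 1) × J) = Fintype.card J * (m + 1) := by
    rw [Fintype.card_prod, Nat.mul_comm]
    simp
  rw [hcard] at h1
  refine le_trans ?_ h1
  let φ : (Fin (m + 1) → 𝓞 k) → (Fin (m + 1) × J → ℤ) := fun y q => B.repr (y q.1) q.2
  have hkv : ∀ y (j : Fin (m + 1)), kv B (φ y) j = algebraMap (𝓞 k) k (y j) := by
    intro y j
    show algebraMap (𝓞 k) k (elt B fun t => B.repr (y j) t) = _
    rw [← basis_elt B]
  have hinj : Function.Injective φ := by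
    intro y z hyz
    funext j
    apply FaithfulSMul.algebraMap_injective (𝓞 k) k
    have h3 := hkv y j
    rw [hyz, hkv z j] at h3
    exact h3.symm
  have h4 : (Set.ncard {x : Fin (m + 1) → 𝓞 k | (∀ j t, |B.repr (x j) t| ≤ (H : ℤ)) ∧
        ¬ ((polA fun j => algebraMap (𝓞 k) k (x j)).natDegree = m ∧
          TateAtTwo (F := F) k' (crvT
            (algebraMap k[X] K (a.comp (polA fun j => algebraMap (𝓞 k) k (x j))))
            (algebraMap k[X] K (b.comp (polA fun j => algebraMap (𝓞 k) k (x j))))))}) ≤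
      Set.ncard {v : Fin (m + 1) × J → ℤ | v ∈ {v : Fin (m + 1) × J → ℤ |
        ¬ ((polA fun l => kv B v l).natDegree = m ∧ ∀ π : k[X], Irreducible π →
          π ∣ b * (a ^ 2 - 4 * b) → Irreducible (π.comp (polA fun l => kv B v l)))} ∧
        ∀ i, |v i| ≤ (H : ℤ)} := by
    rw [← Set.ncard_image_of_injective _ hinj]
    refine Set.ncard_le_ncard ?_ (box_fin _ H)
    rintro _ ⟨y, ⟨b1, hbad⟩, rfl⟩
    refine ⟨?_, ?_⟩
    · rw [Set.mem_setOf_eq]
      rintro ⟨e1, hirr⟩
      apply hbad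
      simp only [hkv] at e1 hirr
      refine ⟨e1, ?_⟩
      refine criterion_odd hT two_ne_zero hb hd hNb hNd hpA hpB (by rw [e1]; exact hm) ?_
      intro π hπ hdv
      have h3 := hirr π hπ hdv
      exact ⟨h3, h3.separable⟩
    · rintro ⟨j, t⟩
      exact b1 j t
  exact_mod_cast h4

end Pool.Agent.R939.BC
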