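import Pool.Agent.R939.HI.Base

/-!
# Generic points over an order in `p`-adic fields: the parameters are integers
-/

set_option autoImplicit false
set_option linter.all false

namespace Pool.Agent.R939.BC

open MvPolynomial Pool.Agent.H936R2 Pool.Agent.H927R2.RD H294UB Pool.Agent.W275.UB
open Pool.Agent.W275.ND Pool.Agent Pool.Agent.W131.ND.Lmk

/-- a generic point near a given one, with the given embedding of the constants -/
theorem lmk3 (O J : Type) [CommRing O] [IsDomain O] [Fintype J] (ω : Module.Basis J ℤ O)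
    (p : ℕ) [Fact p.Prime] (σ₀ : O →+* ℤ_[p]) (V : Type) [Fintype V] (a : V → ℤ_[p]) (M d : ℕ)
    (L : Type) [Field L] [Algebra (EE V) L] [FiniteDimensional (EE V) L] (σ : O →+* L)
    (hfin : Module.finrank (EE V) L < d * Fintype.card J) :
    ∃ (K' : Type) (_ : Field K') (φ : L →+* K') (A : Type) (_ : CommRing A) (_ : IsDomain A)
      (_ : IsDiscreteValuationRing A) (_ : Algebra A K') (_ : IsFractionRing A K') (π : A)
      (τ : ℤ_[p] →+* A) (x : V → ℤ_[p]), Irreducible π ∧ π ∣ (p : A) ∧ ¬ π ^ d ∣ (p : A) ∧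
      (∀ q, algebraMap A K' (τ (x q)) = φ (gn V L (X q))) ∧
      (∀ o : O, φ (σ o) = algebraMap A K' (τ (σ₀ o))) ∧
      ∀ q, (p : ℤ_[p]) ^ M ∣ x q - a q := by
  classical
  have hθ := W688.UB.Theta2.main
  have hT := W125.UB.FinT.tensor_main
  have hN := W21.UB.main
  have hfinO : Module.Finite ℤ O := Module.Finite.of_basis ω
  have hgn : Function.Injective (gn V L) :=
    (algebraMap (EE V) L).injective.comp (IsFractionRing.injective _ _)
  let Φ : MvPolynomial V O →+* L := eval₂Hom σ (fun q => gn V L (X q))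
  have hΦ : Φ.comp (mo O V) = gn V L := by
    apply MvPolynomial.ringHom_ext'
    · exact RingHom.ext_int _ _
    · intro q
      simp [Φ, mo]
  have hΦinj : Function.Injective Φ := inj_of_restrict Φ (by rw [hΦ]; exact hgn)
  have hmo : Function.Injective (mo O V) := by
    have h1 : Function.Injective (Φ ∘ mo O V) := by
      rw [← RingHom.coe_comp, hΦ]
      exact hgn
    exact h1.of_comp
  let F1 : Type := FractionRing (MvPolynomial V O)
  let algF1L : Algebra F1 L := (IsFractionRing.lift hΦinj : F1 →+* L).toAlgebra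
  have hE : Function.Injective ((algebraMap (MvPolynomial V O) F1).comp (mo O V)) :=
    (IsFractionRing.injective (MvPolynomial V O) F1).comp hmo
  let algEF1 : Algebra (EE V) F1 := (IsFractionRing.lift hE : EE V →+* F1).toAlgebra
  have hF1L : ∀ x : MvPolynomial V O,
      algebraMap F1 L (algebraMap (MvPolynomial V O) F1 x) = Φ x := fun x =>
    IsFractionRing.lift_algebraMap hΦinj x
  have hEF1 : ∀ c : MvPolynomial V ℤ, algebraMap (EE V) F1
      (algebraMap (MvPolynomial V ℤ) (EE V) c) =
      algebraMap (MvPolynomial V O) F1 (mo O V c) := fun c =>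
    IsFractionRing.lift_algebraMap hE c
  have htow : IsScalarTower (EE V) F1 L := IsScalarTower.of_algebraMap_eq' (by
    apply IsLocalization.ringHom_ext (nonZeroDivisors (MvPolynomial V ℤ))
    apply MvPolynomial.ringHom_ext'
    · exact RingHom.ext_int _ _
    · intro c
      change algebraMap (EE V) L (algebraMap (MvPolynomial V ℤ) (EE V) (X c)) =
        algebraMap F1 L (algebraMap (EE V) F1
          (algebraMap (MvPolynomial V ℤ) (EE V) (X c)))
      rw [hEF1, hF1L]
      exact (DFunLike.congr_fun hΦ (X c)).symm)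
  have hfd1 : FiniteDimensional (EE V) F1 := FiniteDimensional.left (EE V) F1 L
  have hfd2 : FiniteDimensional F1 L := FiniteDimensional.right (EE V) F1 L
  have hcard : Fintype.card J ≤ Module.finrank (EE V) F1 :=
    card_le ω F1 (algebraMap (MvPolynomial V O) F1) (IsFractionRing.injective _ _)
      (fun c => (hEF1 c).symm)
  have hmul : Module.finrank (EE V) F1 * Module.finrank F1 L =
      Module.finrank (EE V) L := Module.finrank_mul_finrank _ _ _
  have hlt : Module.finrank F1 L < d := by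
    by_contra hcon
    have h1 : Fintype.card J * d ≤ Module.finrank (EE V) F1 * Module.finrank F1 L :=
      Nat.mul_le_mul hcard (not_lt.1 hcon)
    rw [hmul, mul_comm] at h1
    omega
  obtain ⟨θ, hθ1, hθ2⟩ := hθ p V a M
  -- the embedding of `F1`
  let Θ : MvPolynomial V O →+* ℚ_[p] := eval₂Hom ((algebraMap ℤ_[p] ℚ_[p]).comp σ₀)
    (fun q => (θ q : ℚ_[p]))
  have hΘ : ∀ c, Θ (mo O V c) = ((aeval θ c : ℤ_[p]) : ℚ_[p]) := by
    intro c
    have h1 : Θ.comp (mo O V) = (PadicInt.Coe.ringHom).comp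
        (aeval θ : MvPolynomial V ℤ →ₐ[ℤ] ℤ_[p]).toRingHom := by
      apply MvPolynomial.ringHom_ext'
      · exact RingHom.ext_int _ _
      · intro q
        simp [Θ, mo] <;> rfl
    exact DFunLike.congr_fun h1 c
  have hΘinj : Function.Injective Θ := by
    apply inj_of_restrict
    rw [injective_iff_map_eq_zero]
    intro c hc
    by_contra hc0
    have h1 : Θ (mo O V c) = 0 := hc
    rw [hΘ] at h1
    exact hθ2 c hc0 (PadicInt.ext (by rw [h1]; rfl))
  obtain ⟨L', _, _, ψ, hfd, hfr, hψ⟩ := hT F1 L ℚ_[p] (IsFractionRing.lift hΘinj)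
  obtain ⟨A, _, _, _, _, _, π, hπ, hπp, hπD, -, hz⟩ := hN p (d - 1) L' (by omega)
  have hd1 : d - 1 + 1 = d := by omega
  rw [hd1] at hπD
  have hAinj : Function.Injective (algebraMap A L') := IsFractionRing.injective A L'
  choose τ₀ hτ₀ using hz
  let τ : ℤ_[p] →+* A :=
    { toFun := τ₀
      map_one' := hAinj (by rw [hτ₀]; simp)
      map_mul' := fun x y => hAinj (by rw [hτ₀, map_mul, hτ₀, hτ₀]; simp)
      map_zero' := hAinj (by rw [hτ₀]; simp)
      map_add' := fun x y => hAinj (by rw [hτ₀, map_add, hτ₀, hτ₀]; simp) }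
  have hτ : ∀ z, algebraMap A L' (τ z) = algebraMap ℚ_[p] L' (z : ℚ_[p]) := hτ₀
  have hψΦ : ∀ x : MvPolynomial V O, ψ (Φ x) = algebraMap ℚ_[p] L' (Θ x) := by
    intro x
    rw [← hF1L, hψ, IsFractionRing.lift_algebraMap]
  have hψσ : ∀ o : O, ψ (σ o) = algebraMap A L' (τ (σ₀ o)) := by
    intro o
    have h1 := hψΦ (C o)
    have h2 : Φ (C o) = σ o := by simp [Φ]
    have h3 : Θ (C o) = ((σ₀ o : ℤ_[p]) : ℚ_[p]) := by simp [Θ]
    rw [h2, h3] at h1
    rw [h1, hτ]
  have hψX : ∀ q : V, ψ (gn V L (X q)) = algebraMap A L' (τ (θ q)) := by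
    intro q
    have h1 := hψΦ (X q)
    have h2 : Φ (X q) = gn V L (X q) := by simp [Φ]
    have h3 : Θ (X q) = (θ q : ℚ_[p]) := by simp [Θ]
    rw [h2, h3] at h1
    rw [h1, hτ]
  exact ⟨L', inferInstance, ψ, A, inferInstance, inferInstance, inferInstance, inferInstance,
    inferInstance, π, τ, θ, hπ, hπp, hπD, fun q => (hψX q).symm, hψσ, hθ1⟩

end Pool.Agent.R939.BC
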