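import Pool.Agent.R939.BC.Comp3

/-!
# Almost all pairs of a twist and a base change of a fixed elliptic curve
-/

set_option autoImplicit false
set_option linter.all false

namespace Pool.Agent.R939.BC

open Polynomial NumberField Pool.Agent.R939.EI Pool.Agent.R939.HI Pool.Agent.W275.UB
open Pool.Agent.TH115.GD Pool.Agent Pool.Agent.H927R2.RD Pool.Agent.W275.ND

/-- the index set of the coefficients of `h` and of the polynomials `D l` -/
abbrev Iy (m : ℕ) {u : ℕ} (n : Fin u → ℕ) : Type := Fin (m + 1) ⊕ (Σ l : Fin u, Fin (n l + 1))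

section nf

variable {k : Type} [Field k] [NumberField k] {J : Type} [Fintype J] (B : Module.Basis J ℤ (𝓞 k))
  {m u : ℕ} {n : Fin u → ℕ}

/-- `D l (h)` as a polynomial in the parameters -/
noncomputable def polDH (m : ℕ) {u : ℕ} (n : Fin u → ℕ) (l : Fin u) :
    (MvPolynomial (Iy m n) ℤ)[X] :=
  (polA fun j => (MvPolynomial.X (Sum.inr ⟨l, j⟩) : MvPolynomial (Iy m n) ℤ)).comp
    (polA fun j => (MvPolynomial.X (Sum.inl j) : MvPolynomial (Iy m n) ℤ))

theorem polDH_map {R : Type} [CommRing R] (l : Fin u) (v : Iy m n → R) :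
    (polDH m n l).map (av v) = (polA fun j => v (Sum.inr ⟨l, j⟩)).comp (polA fun j => v (Sum.inl j)) := by
  rw [polDH, Polynomial.map_comp, polA_map, polA_map]
  simp only [av_X]

theorem polDH_deg (l : Fin u) : (polDH m n l).natDegree ≤ n l * m :=
  natDegree_comp_le.trans (Nat.mul_le_mul (polA_natDegree _) (polA_natDegree _))

theorem dens_DH (l : Fin u) (hm : 1 ≤ m) (hn : 1 ≤ n l) :
    D0 (RootSq B (polDH m n l) 0 (n l * m - 1)) := by
  have hpos : 1 ≤ n l * m := Nat.mul_pos hn hm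
  refine dens_root B hpos (k := 1) le_rfl (by omega) (polDH_deg l) ?_
  intro p hp hp2
  let a : Iy m n → ℤ := fun i => match i with
    | Sum.inl j => (X ^ m : ℤ[X]).coeff j
    | Sum.inr o => (X ^ (n o.1) + C (p : ℤ) : ℤ[X]).coeff (o.2 : ℕ)
  have h1 : (polDH m n l).map (av a) = X ^ (n l * m) + C (p : ℤ) := by
    rw [polDH_map]
    have e1 : (polA fun j : Fin (n l + 1) => a (Sum.inr ⟨l, j⟩)) = X ^ (n l) + C (p : ℤ) := by
      show (polA fun j : Fin (n l + 1) => (X ^ (n l) + C (p : ℤ) : ℤ[X]).coeff (j : ℕ)) = _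
      refine polA_of ?_
      refine (natDegree_add_le _ _).trans (max_le ?_ ?_)
      · exact natDegree_X_pow_le _
      · rw [natDegree_C]
        exact Nat.zero_le _
    have e2 : (polA fun j : Fin (m + 1) => a (Sum.inl j)) = X ^ m := by
      show (polA fun j : Fin (m + 1) => (X ^ m : ℤ[X]).coeff (j : ℕ)) = _
      exact polA_of (natDegree_X_pow_le _)
    rw [e1, e2, add_comp, C_comp, pow_comp, X_comp, ← pow_mul, mul_comm m]
  refine ⟨a, 1, isCoprime_one_left, ?_, ?_, ?_⟩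
  · rw [h1, coeff_add, coeff_X_pow, coeff_C, if_neg (by omega), if_pos rfl]
    ring
  · rw [h1, coeff_add, coeff_X_pow, if_pos rfl, coeff_C, if_neg (by omega), add_zero]
    exact isCoprime_one_left
  · intro j hj0 hjN
    rw [h1, coeff_add, coeff_X_pow, if_neg hjN, coeff_C, if_neg hj0, add_zero]

/-- **Almost all pairs.** -/
theorem dens_pairs {a b F : k[X]} (hF : F ≠ 0) (hb : ∀ (c : k) (g : k[X]), b ≠ C c * g ^ 2)
    (hd : ∀ (c : k) (g : k[X]), a ^ 2 - 4 * b ≠ C c * g ^ 2) (hm : 1 ≤ m) (hn : ∀ l, 1 ≤ n l) :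
    D0 {x : Iy m n × J → ℤ | ¬ ((polA fun j => kv B x (Sum.inl j)).natDegree = m ∧
      InertIn a b (∏ l, polA fun j => kv B x (Sum.inr ⟨l, j⟩)) ∧
      ∀ π : k[X], Irreducible π → π ∣ F * ∏ l, polA (fun j => kv B x (Sum.inr ⟨l, j⟩)) →
        Irreducible (π.comp (polA fun j => kv B x (Sum.inl j))))} := by
  classical
  obtain ⟨j0⟩ : Nonempty J := by
    rw [← Fintype.card_pos_iff, card_J B]
    exact Module.finrank_pos
  have h1 := D0_pull (dens_comp B hF hm) (β := Iy m n × J)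
    (fun q => ((Sum.inl q.1 : Iy m n), q.2)) (by
      rintro ⟨a, b⟩ ⟨c, d⟩ h
      simp only [Prod.mk.injEq, Sum.inl.injEq] at h
      exact Prod.ext h.1 h.2)
  have h2 := D0_pull (dens_inert B hb hd hn) (β := Iy m n × J)
    (fun q => ((Sum.inr q.1 : Iy m n), q.2)) (by
      rintro ⟨a, b⟩ ⟨c, d⟩ h
      simp only [Prod.mk.injEq, Sum.inr.injEq] at h
      exact Prod.ext h.1 h.2)
  have h3 : D0 (⋃ l ∈ (Finset.univ : Finset (Fin u)), RootSq B (polDH m n l) 0 (n l * m - 1)) :=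
    D0.biUnion _ _ fun l _ => dens_DH B l hm (hn l)
  have h4 : D0 (⋃ l ∈ (Finset.univ : Finset (Fin u)), {x : Iy m n × J → ℤ |
      MvPolynomial.eval x (MvPolynomial.X ((Sum.inr ⟨l, Fin.last (n l)⟩ : Iy m n), j0)) = 0}) :=
    D0.biUnion _ _ fun l _ => zero _ (MvPolynomial.X_ne_zero _)
  intro ε hε
  refine ((((h1.union h2).union h3).union h4) ε hε).mono ?_
  intro x hx
  by_contra hcon
  apply hx
  simp only [Set.mem_union, not_or, Set.mem_iUnion, exists_prop, not_exists, not_and,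
    Finset.mem_univ, forall_true_left] at hcon
  obtain ⟨⟨⟨k1, k2⟩, k3⟩, k4⟩ := hcon
  have k1' : (polA fun j => kv B x (Sum.inl j)).natDegree = m ∧
      ∀ π : k[X], Irreducible π → π ∣ F → Irreducible (π.comp (polA fun j => kv B x (Sum.inl j))) := by
    by_contra h0
    exact k1 (fun e hall => h0 ⟨e, hall⟩)
  have k2' : InertIn a b (∏ l, polA fun j => kv B x (Sum.inr ⟨l, j⟩)) := by
    by_contra h0
    exact k2 h0
  refine ⟨k1'.1, k2', ?_⟩
  intro π hπ hdv
  rcases hπ.prime.dvd_or_dvd hdv with h5 | h5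
  · exact k1'.2 π hπ h5
  · obtain ⟨l, -, hl⟩ := (hπ.prime.dvd_finsetProd_iff _).1 h5
    have hlead : IsUnit (kv B x (Sum.inr ⟨l, Fin.last (n l)⟩)) := by
      refine isUnit_iff_ne_zero.2 (kv_ne B (j := j0) ?_)
      intro h0
      apply k4 l
      show MvPolynomial.eval x (MvPolynomial.X _) = 0
      rw [MvPolynomial.eval_X]
      exact h0
    have hdeg := (lead_polA (c := fun j => kv B x (Sum.inr ⟨l, j⟩)) hlead).1
    set h := polA fun j => kv B x (Sum.inl j) with hh
    set D := polA fun j => kv B x (Sum.inr ⟨l, j⟩) with hD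
    have hpos : 1 ≤ n l * m := Nat.mul_pos (hn l) hm
    have hirr : Irreducible (D.comp h) := by
      refine irr_of_no_small (N := n l * m - 1) ?_ ?_
      · rw [natDegree_comp, hdeg, k1'.1]
        omega
      · intro f hf hfd hfdv
        refine not_rootSq B (k3 l) hf hfd (by rw [polDH_map]; exact hfdv) 0 ?_
        rw [Polynomial.map_zero, zero_pow two_ne_zero, sub_zero]
        exact dvd_zero _
    obtain ⟨w, hw⟩ := hl
    rw [hw, mul_comp] at hirr
    have hπd : ¬ IsUnit (π.comp h) := by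
      intro hu
      have h6 := natDegree_eq_zero_of_isUnit hu
      rw [natDegree_comp, k1'.1] at h6
      have h7 := hπ.natDegree_pos
      rcases Nat.mul_eq_zero.1 h6 with h8 | h8 <;> omega
    rcases hirr.isUnit_or_isUnit rfl with h6 | h6
    · exact absurd h6 hπd
    · exact (irreducible_mul_isUnit h6).1 hirr

end nf

section main

variable {k k' K F : Type} [Field k] [Field k'] [Algebra k k'] [Field K] [Algebra k[X] K]
    [Field F] [Algebra k'[X] F] [IsFractionRing k'[X] F] [Algebra K F]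

/-- **Almost all pairs of a twist and a base change.** -/
theorem fixed_pairs [NumberField k] (hT : IsTower k k' K F) {J : Type} [Fintype J]
    (B : Module.Basis J ℤ (𝓞 k)) {a b : k[X]} (hNb : NotNorm b) (hNd : NotNorm (a ^ 2 - 4 * b))
    (hO : OnlyTrivial a b) (hO' : OnlyTrivial (-2 * a) (a ^ 2 - 4 * b)) {m : ℕ} (hm : Odd m)
    {u : ℕ} {n : Fin u → ℕ} (hn : ∀ l, 1 ≤ n l) {η : ℝ} (hη : 0 < η) :
    ∃ H0 : ℕ, ∀ H : ℕ, H0 ≤ H →
      (({x : (Fin (m + 1) → 𝓞 k) × ((l : Fin u) → Fin (n l + 1) → 𝓞 k) |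
        ((∀ j t, |B.repr (x.1 j) t| ≤ (H : ℤ)) ∧ ∀ l j t, |B.repr (x.2 l j) t| ≤ (H : ℤ)) ∧
        ¬ ((polA fun j => algebraMap (𝓞 k) k (x.1 j)).natDegree = m ∧
          ∀ c : k, c ≠ 0 → TateAtTwo (F := F) k' (crvT
            (algebraMap k[X] K ((C c * (a * ∏ l, polA fun j => algebraMap (𝓞 k) k (x.2 l j))).comp
              (polA fun j => algebraMap (𝓞 k) k (x.1 j))))
            (algebraMap k[X] K ((C (c ^ 2) * (b * (∏ l, polA fun j => algebraMap (𝓞 k) k (x.2 l j))
              ^ 2)).comp (polA fun j => algebraMap (𝓞 k) k (x.1 j))))))}.ncard : ℕ) : ℝ) ≤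
        η * (2 * H + 1) ^ (Fintype.card J * ((m + 1) + ∑ l, (n l + 1))) := by
  classical
  have hb := HI.ne_sq_of_notNorm hNb
  have hd := HI.ne_sq_of_notNorm hNd
  have hb0 : b ≠ 0 := fun h => hb 0 0 (by rw [h]; simp)
  have hd0 : a ^ 2 - 4 * b ≠ 0 := fun h => hd 0 0 (by rw [h]; simp)
  obtain ⟨H0, hH⟩ := dens_pairs (m := m) (n := n) B (F := b * (a ^ 2 - 4 * b))
    (mul_ne_zero hb0 hd0) hb hd hm.pos hn η hη
  refine ⟨H0, fun H hHH => ?_⟩
  have h1 := hH H hHH
  have hcard : Fintype.card (Iy m n × J) =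
      Fintype.card J * ((m + 1) + ∑ l, (n l + 1)) := by
    rw [Fintype.card_prod, Fintype.card_sum, Fintype.card_sigma, Nat.mul_comm]
    simp
  rw [hcard] at h1
  refine le_trans ?_ h1
  let φ : ((Fin (m + 1) → 𝓞 k) × ((l : Fin u) → Fin (n l + 1) → 𝓞 k)) → (Iy m n × J → ℤ) :=
    fun y q => match q.1 with
      | Sum.inl j => B.repr (y.1 j) q.2
      | Sum.inr o => B.repr (y.2 o.1 o.2) q.2
  have hkv1 : ∀ y (j : Fin (m + 1)), kv B (φ y) (Sum.inl j) = algebraMap (𝓞 k) k (y.1 j) := by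
    intro y j
    show algebraMap (𝓞 k) k (elt B fun t => B.repr (y.1 j) t) = _
    rw [← basis_elt B]
  have hkv2 : ∀ y (o : Σ l : Fin u, Fin (n l + 1)), kv B (φ y) (Sum.inr o) =
      algebraMap (𝓞 k) k (y.2 o.1 o.2) := by
    intro y o
    show algebraMap (𝓞 k) k (elt B fun t => B.repr (y.2 o.1 o.2) t) = _
    rw [← basis_elt B]
  have hinj : Function.Injective φ := by
    intro y z hyz
    refine Prod.ext ?_ ?_
    · funext j
      apply FaithfulSMul.algebraMap_injective (𝓞 k) k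
      have h3 := hkv1 y j
      rw [hyz, hkv1 z j] at h3
      exact h3.symm
    · funext l j
      apply FaithfulSMul.algebraMap_injective (𝓞 k) k
      have h3 := hkv2 y ⟨l, j⟩
      rw [hyz, hkv2 z ⟨l, j⟩] at h3
      exact h3.symm
  have h4 : (Set.ncard {x : (Fin (m + 1) → 𝓞 k) × ((l : Fin u) → Fin (n l + 1) → 𝓞 k) |
        ((∀ j t, |B.repr (x.1 j) t| ≤ (H : ℤ)) ∧ ∀ l j t, |B.repr (x.2 l j) t| ≤ (H : ℤ)) ∧
        ¬ ((polA fun j => algebraMap (𝓞 k) k (x.1 j)).natDegree = m ∧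
          ∀ c : k, c ≠ 0 → TateAtTwo (F := F) k' (crvT
            (algebraMap k[X] K ((C c * (a * ∏ l, polA fun j => algebraMap (𝓞 k) k (x.2 l j))).comp
              (polA fun j => algebraMap (𝓞 k) k (x.1 j))))
            (algebraMap k[X] K ((C (c ^ 2) * (b * (∏ l, polA fun j => algebraMap (𝓞 k) k (x.2 l j))
              ^ 2)).comp (polA fun j => algebraMap (𝓞 k) k (x.1 j))))))}) ≤
      Set.ncard {v : Iy m n × J → ℤ |
        v ∈ {x : Iy m n × J → ℤ | ¬ ((polA fun j => kv B x (Sum.inl j)).natDegree = m ∧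
          InertIn a b (∏ l, polA fun j => kv B x (Sum.inr ⟨l, j⟩)) ∧
          ∀ π : k[X], Irreducible π → π ∣ (b * (a ^ 2 - 4 * b)) *
              ∏ l, polA (fun j => kv B x (Sum.inr ⟨l, j⟩)) →
            Irreducible (π.comp (polA fun j => kv B x (Sum.inl j))))} ∧ ∀ i, |v i| ≤ (H : ℤ)} := by
    rw [← Set.ncard_image_of_injective _ hinj]
    refine Set.ncard_le_ncard ?_ (box_fin _ H)
    rintro _ ⟨y, ⟨⟨b1, b2⟩, hbad⟩, rfl⟩
    refine ⟨?_, ?_⟩
    · rw [Set.mem_setOf_eq]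
      rintro ⟨e1, hin, hirr⟩
      apply hbad
      simp only [hkv1, hkv2] at e1 hin hirr
      refine ⟨e1, ?_⟩
      intro c hc
      refine twist_main hT two_ne_zero hb0 hd0 hNb hNd hO hO' hin hc (by rw [e1]; exact hm) ?_
      intro π hπ hdv
      have h3 := hirr π hπ hdv
      exact ⟨h3, h3.separable⟩
    · rintro ⟨j | ⟨l, j⟩, t⟩
      · exact b1 j t
      · exact b2 l j t
  exact_mod_cast h4

end main

end Pool.Agent.R939.BC
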