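import Pool.Agent.R939.BC.Lmk3
import Pool.Agent.R939.HI.Trans

/-!
# A transfer principle for densities
-/

set_option autoImplicit false
set_option linter.all false

namespace Pool.Agent.R939.BC

open MvPolynomial Pool.Agent.W275.UB Pool.Agent.W275.ND Pool.Agent Pool.Agent.H927R2.RD
open Pool.Agent.W131.ND.Lmk

section enc

variable {O J V T : Type} [CommRing O] [Fintype J] (ω : Module.Basis J ℤ O)

/-- a constant, in terms of the coordinates -/
noncomputable def enc (V T : Type) (o : O) : MvPolynomial (J ⊕ T) (MvPolynomial V ℤ) :=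
  ∑ j, C (C (ω.repr o j)) * X (Sum.inl j)

noncomputable def encM (T : Type) (c : MvPolynomial V O) :
    MvPolynomial (J ⊕ T) (MvPolynomial V ℤ) :=
  ∑ m ∈ c.support, enc ω V T (c.coeff m) * C (monomial m 1)

noncomputable def encE (g : MvPolynomial T (MvPolynomial V O)) :
    MvPolynomial (J ⊕ T) (MvPolynomial V ℤ) :=
  ∑ m ∈ g.support, encM ω T (g.coeff m) * m.prod fun i n => X (Sum.inr i) ^ n

variable {R : Type} [CommRing R] (φ : MvPolynomial V ℤ →+* R) (y : J ⊕ T → R) (σ : O →+* R)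

theorem eval_enc (hσ : ∀ j, y (Sum.inl j) = σ (ω j)) (o : O) :
    eval₂ φ y (enc ω V T o) = σ o := by
  have hc : ∀ n : ℤ, φ (C n) = (n : R) := fun n => by
    have : (C n : MvPolynomial V ℤ) = ((n : ℤ) : MvPolynomial V ℤ) := by simp
    rw [this, map_intCast]
  rw [enc, eval₂_sum]
  conv_rhs => rw [← ω.sum_repr o, map_sum]
  refine Finset.sum_congr rfl fun j _ => ?_
  rw [eval₂_mul, eval₂_C, hc, eval₂_X, hσ, zsmul_eq_mul, map_mul, map_intCast]

theorem eval_encM (hσ : ∀ j, y (Sum.inl j) = σ (ω j)) (c : MvPolynomial V O) :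
    eval₂ φ y (encM ω T c) = eval₂Hom σ (fun q => φ (X q)) c := by
  rw [encM, eval₂_sum, coe_eval₂Hom, eval₂_eq]
  refine Finset.sum_congr rfl fun m _ => ?_
  rw [eval₂_mul, eval_enc ω φ y σ hσ, eval₂_C]
  congr 1
  rw [monomial_eq, C_1, one_mul, map_finsuppProd, Finsupp.prod]
  simp

theorem eval_encE (hσ : ∀ j, y (Sum.inl j) = σ (ω j)) (g : MvPolynomial T (MvPolynomial V O)) :
    eval₂ φ y (encE ω g) = eval₂ (eval₂Hom σ (fun q => φ (X q))) (fun i => y (Sum.inr i)) g := by
  rw [encE, eval₂_sum, eval₂_eq]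
  refine Finset.sum_congr rfl fun m _ => ?_
  rw [eval₂_mul, eval_encM ω φ y σ hσ]
  congr 1
  rw [Finsupp.prod, ← coe_eval₂Hom, map_prod]
  simp

/-- the equations of the multiplication table -/
noncomputable def tabE (V T : Type) : Set (MvPolynomial (J ⊕ T) (MvPolynomial V ℤ)) :=
  (Set.range fun jl : J × J => X (Sum.inl jl.1) * X (Sum.inl jl.2) -
    ∑ t, C (C (ω.repr (ω jl.1 * ω jl.2) t)) * X (Sum.inl t)) ∪
  {(∑ t, C (C (ω.repr 1 t)) * X (Sum.inl t)) - 1}

theorem eval_tabE :
    (∀ g ∈ tabE ω V T, eval₂ φ y g = 0) ↔ Tab ω fun j => y (Sum.inl j) := by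
  have hc : ∀ n : ℤ, φ (C n) = (n : R) := fun n => by
    have : (C n : MvPolynomial V ℤ) = ((n : ℤ) : MvPolynomial V ℤ) := by simp
    rw [this, map_intCast]
  constructor
  · intro h
    constructor
    · intro j l
      have h1 := h _ (Or.inl ⟨(j, l), rfl⟩)
      simp only [eval₂_sub, eval₂_mul, eval₂_X, eval₂_sum, eval₂_C, hc] at h1
      exact sub_eq_zero.1 h1
    · have h1 := h _ (Or.inr rfl)
      simp only [eval₂_sub, eval₂_mul, eval₂_X, eval₂_sum, eval₂_C, hc, eval₂_one] at h1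
      exact sub_eq_zero.1 h1
  · rintro ⟨h1, h2⟩ g hg
    rcases hg with ⟨⟨j, l⟩, rfl⟩ | rfl
    · simp only [eval₂_sub, eval₂_mul, eval₂_X, eval₂_sum, eval₂_C, hc]
      exact sub_eq_zero.2 (h1 j l)
    · simp only [eval₂_sub, eval₂_mul, eval₂_X, eval₂_sum, eval₂_C, hc, eval₂_one]
      exact sub_eq_zero.2 h2

end enc

/-- **The transfer principle.** The set of the parameters for which the equations `G` have a solution
of small degree has density zero, if they have no solutions in the local models near one point. -/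
theorem transfer {O J V T : Type} [CommRing O] [IsDomain O] [Fintype J] [Fintype V] [Fintype T]
    (ω : Module.Basis J ℤ O) (G : Set (MvPolynomial T (MvPolynomial V O))) (N : ℕ)
    (halg : ∀ (Ω : Type) [Field Ω] [IsAlgClosed Ω] [Algebra (EE V) Ω] (σ : O →+* Ω) (y : T → Ω),
      Function.Injective (eval₂Hom σ (fun q : V => gn V Ω (X q))) →
      (∀ o, IsAlgebraic (EE V) (σ o)) →
      (∀ g ∈ G, eval₂ (eval₂Hom σ (fun q => gn V Ω (X q))) y g = 0) →
      ∀ j, IsAlgebraic (EE V) (y j))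
    (p : ℕ) [Fact p.Prime] (σ₀ : O →+* ℤ_[p]) (a : V → ℤ_[p]) (M : ℕ)
    (hno : ∀ (K' : Type) [Field K'] (A : Type)
      [CommRing A] [IsDomain A] [IsDiscreteValuationRing A] [Algebra A K'] [IsFractionRing A K']
      (π : A) (τ : ℤ_[p] →+* A), Irreducible π → π ∣ (p : A) → ¬ π ^ (N + 1) ∣ (p : A) →
      ∀ x : V → ℤ_[p], (∀ q, (p : ℤ_[p]) ^ M ∣ x q - a q) → ∀ y : T → K',
      (∀ g ∈ G, eval₂ (eval₂Hom ((algebraMap A K').comp (τ.comp σ₀))
        (fun q => algebraMap A K' (τ (x q)))) y g = 0) → False) :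
    D0 {v : V → ℤ | ∃ (K : Type) (_ : Field K) (_ : NumberField K) (σ : O →+* K) (y : T → K),
      Module.finrank ℚ K ≤ N * Fintype.card J ∧
      ∀ g ∈ G, eval₂ (eval₂Hom σ (fun q => (v q : K))) y g = 0} := by
  classical
  by_contra hcon
  have hcon' : ¬ (∀ ε : ℝ, 0 < ε → UD ε {v : V → ℤ |
      ∃ (K : Type) (_ : Field K) (_ : NumberField K) (y : J ⊕ T → K),
        Module.finrank ℚ K ≤ N * Fintype.card J ∧
        (∀ g ∈ tabE ω V T ∪ encE ω '' G, eval₂ ((Int.castRingHom K).comp (eval v)) y g = 0) ∧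
        eval₂ ((Int.castRingHom K).comp (eval v)) y 1 ≠ 0}) := by
    intro h
    apply hcon
    intro ε hε
    refine (h ε hε).mono ?_
    rintro v ⟨K, _, _, σ, y, hK, hy⟩
    refine ⟨K, inferInstance, inferInstance, Sum.elim (fun j => σ (ω j)) y, hK, ?_, ?_⟩
    · have hx : (fun q : V => ((Int.castRingHom K).comp (eval v)) (X q)) = fun q => (v q : K) := by
        funext q
        simp
      rintro g (hg | ⟨g, hg, rfl⟩)
      · exact (eval_tabE ω _ _).2 ((HI.tab O J K ω _).2 ⟨σ, fun j => rfl⟩) g hg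
      · rw [eval_encE ω _ _ σ (fun j => rfl), hx]
        exact hy g hg
    · rw [eval₂_one]
      exact one_ne_zero
  have hinj : ∀ (Ω : Type) [Field Ω] [Algebra (EE V) Ω] (σ : O →+* Ω),
      Function.Injective (eval₂Hom σ (fun q : V => gn V Ω (X q))) := by
    intro Ω _ _ σ
    haveI : Module.Finite ℤ O := Module.Finite.of_basis ω
    have hgn : Function.Injective (gn V Ω) :=
      (algebraMap (EE V) Ω).injective.comp (IsFractionRing.injective _ _)
    have hΦ : (eval₂Hom σ (fun q : V => gn V Ω (X q))).comp (mo O V) = gn V Ω := by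
      apply MvPolynomial.ringHom_ext'
      · exact RingHom.ext_int _ _
      · intro q
        simp [mo]
    exact inj_of_restrict _ (by rw [hΦ]; exact hgn)
  have hgX : ∀ (Ω : Type) [Field Ω] [Algebra (EE V) Ω], (fun q : V => (gn V Ω) (X q)) =
      fun q => gn V Ω (X q) := fun _ _ _ => rfl
  obtain ⟨L, _, _, y, hfd, hdeg, hy, -⟩ := HI.genT V (J ⊕ T) (N * Fintype.card J)
    (tabE ω V T ∪ encE ω '' G) 1 (by
      intro Ω _ _ _ y hy
      obtain ⟨σ, hσ⟩ := (HI.tab O J Ω ω _).1 ((eval_tabE ω _ _).1 fun g hg => hy g (Or.inl hg))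
      have hint : ∀ x : O, IsIntegral ℤ (σ x) := by
        intro x
        haveI : Module.Finite ℤ O := Module.Finite.of_basis ω
        have h1 : IsIntegral ℤ x := Algebra.IsIntegral.isIntegral x
        exact h1.map (σ.toIntAlgHom)
      have hσa : ∀ x : O, IsAlgebraic (EE V) (σ x) := by
        intro x
        obtain ⟨p, hp, hpx⟩ := hint x
        refine IsIntegral.isAlgebraic
          ⟨p.map (Int.castRingHom (EE V)), hp.map _, ?_⟩
        rw [Polynomial.eval₂_map]
        have h2 : (algebraMap (EE V) Ω).comp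
            (Int.castRingHom (EE V)) = algebraMap ℤ Ω := RingHom.ext_int _ _
        rw [h2]
        exact hpx
      have h3 := halg Ω σ (fun i => y (Sum.inr i)) (hinj Ω σ) hσa (by
        intro g hg
        have h4 := hy _ (Or.inr ⟨g, hg, rfl⟩)
        rw [eval_encE ω _ _ σ hσ] at h4
        exact h4)
      rintro (j | i)
      · have h4 : y (Sum.inl j) = σ (ω j) := hσ j
        rw [h4]
        exact hσa _
      · exact h3 i) hcon'
  haveI := hfd
  obtain ⟨σ, hσ⟩ := (HI.tab O J L ω _).1 ((eval_tabE ω _ _).1 fun g hg => hy g (Or.inl hg))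
  have hJ : 0 < Fintype.card J := by
    rw [Fintype.card_pos_iff]
    by_contra hemp
    rw [not_nonempty_iff] at hemp
    have : Subsingleton O := ω.repr.toEquiv.subsingleton
    exact not_subsingleton O this
  obtain ⟨K', _, φ, A, _, _, _, _, _, π, τ, x, hπ, hπp, hπN, hx, hτ, hxa⟩ :=
    lmk3 O J ω p σ₀ V a M (N + 1) L σ
      (lt_of_le_of_lt hdeg (Nat.mul_lt_mul_of_pos_right (Nat.lt_succ_self N) hJ))
  refine hno K' A π τ hπ hπp hπN x hxa (fun i => φ (y (Sum.inr i))) ?_
  intro g hg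
  have h4 := hy _ (Or.inr ⟨g, hg, rfl⟩)
  rw [eval_encE ω _ _ σ hσ] at h4
  have h5 := congrArg φ h4
  rw [map_zero, ← coe_eval₂Hom, ← RingHom.comp_apply] at h5
  rw [← h5, ← coe_eval₂Hom]
  refine congrArg (fun f : MvPolynomial T (MvPolynomial V O) →+* K' => f g) ?_
  apply MvPolynomial.ringHom_ext'
  · apply MvPolynomial.ringHom_ext'
    · ext o
      simp [hτ]
    · intro q
      simp [hx]
  · intro i
    simp

end Pool.Agent.R939.BC
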